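import Pool.Agent.H29.SX.Targets

/-!
# Board shx_modules, row RWS: the rows (helper12)
-/

set_option autoImplicit false

namespace Pool.Agent.H12.SX

open NumberField Height Finset Polynomial Pool.Agent.H24.RD Pool.Agent.H23.RDD Pool.Agent.H29.RQ
  Pool.Agent.H29.SX

/-- automorphisms preserve the field generated by the roots of unity -/
theorem KK_stable (F Ω : Type) [Field F] [Field Ω] [Algebra F Ω] (τ : Ω ≃ₐ[F] Ω) (z : Ω)
    (hz : z ∈ KK F Ω) : τ z ∈ KK F Ω := by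
  have h1 : τ z ∈ (KK F Ω).map (τ : Ω →ₐ[F] Ω) := ⟨z, hz, rfl⟩
  unfold KK at h1 ⊢
  rw [IntermediateField.adjoin_map] at h1
  refine IntermediateField.adjoin.mono F _ _ ?_ h1
  rintro _ ⟨y, ⟨n, hn, hy⟩, rfl⟩
  refine ⟨n, hn, ?_⟩
  show (τ y) ^ n = 1
  rw [← map_pow, hy, map_one]

theorem pt_map {F Ω : Type} [Field F] [Field Ω] [Algebra F Ω] (τ : Ω ≃ₐ[F] Ω) {r : ℕ}
    (γ : Fin r → F) (β : Ω) (a : Fin (r + 1) → ℤ) :
    τ (pt (fun i => algebraMap F Ω (γ i)) β a) = pt (fun i => algebraMap F Ω (γ i)) (τ β) a := by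
  unfold pt
  rw [map_mul, map_zpow₀, map_prod]
  congr 1
  refine Finset.prod_congr rfl fun i _ => ?_
  rw [map_zpow₀, AlgEquiv.commutes]

/-- an automorphism fixing `K`, as an automorphism over `K` -/
noncomputable def upK {F Ω : Type} [Field F] [Field Ω] [Algebra F Ω] (K : IntermediateField F Ω)
    (τ : Ω ≃ₐ[F] Ω) (h : ∀ z ∈ K, τ z = z) : Ω ≃ₐ[K] Ω :=
  AlgEquiv.ofRingEquiv (f := (τ : Ω ≃+* Ω)) fun z => h z.1 z.2

theorem upK_apply {F Ω : Type} [Field F] [Field Ω] [Algebra F Ω] (K : IntermediateField F Ω)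
    (τ : Ω ≃ₐ[F] Ω) (h : ∀ z ∈ K, τ z = z) (x : Ω) : upK K τ h x = τ x := rfl

theorem pf_RWS (h : T_ROW) : T_RWS := by
  intro F Ω _ _ _ _ _ _ _ r γ E hE Φ Q e0 s t R d0 nn β X hX1 hX2 hC
  have : Algebra.IsAlgebraic (KK F Ω) Ω := Algebra.IsAlgebraic.tower_top (K := F) (KK F Ω)
  have : IsAlgClosure (KK F Ω) Ω := ⟨inferInstance, inferInstance⟩
  have hgal : IsGalois (KK F Ω) Ω := inferInstance
  obtain ⟨a, ν, f, g, h1, h2, h3, h4⟩ := h (KK F Ω) Ω R d0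
    {κ : Fin (r + 1) → ℕ // ∑ l, κ l < t} {c : ℕ // 1 ≤ c ∧ c ≤ s}
    (fun κ j => jc Ω κ.1 (nn j) * yy F Ω Φ Q e0 γ β 0 (nn j))
    (fun c j => yy F Ω Φ Q e0 γ β c.1 (nn j))
    (by
      intro x hx1 hx2
      apply hC.inj x
      · intro κ hκ
        exact hx1 ⟨κ, hκ⟩
      · intro c hc1 hc2
        exact hx2 ⟨c, hc1, hc2⟩)
    (JK (KK F Ω) t (yy F Ω Φ Q e0 γ β 0) nn)
    (fun x hx i => hx i.1 i.2) hC.dim
  -- the translation
  let tw : ℕ → (Ω ≃ₐ[KK F Ω] Ω) → Ω := fun c σ =>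
    (Φ ^ (e0 + c)) (σ ((Φ ^ (e0 + c)).symm β))
  have hfix : ∀ (σ : Ω ≃ₐ[KK F Ω] Ω), ∀ z ∈ KK F Ω, σ z = z := fun σ z hz =>
    σ.commutes ⟨z, hz⟩
  have htw : ∀ c σ (n : Fin (r + 1) → ℤ), σ (yy F Ω Φ Q e0 γ β c n) =
      yy F Ω Φ Q e0 γ (tw c σ) c n := by
    intro c σ n
    unfold yy
    rw [map_pow]
    congr 1
    set ψ := Φ ^ (e0 + c) with hψ
    have e1 := pt_map ((ψ.symm.trans (σ.restrictScalars F)).trans ψ) γ β n
    have e2 : ψ (σ (ψ.symm (pt (fun i => algebraMap F Ω (γ i)) β n))) =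
        pt (fun i => algebraMap F Ω (γ i)) (ψ (σ (ψ.symm β))) n := e1
    rw [← e2]
    exact (ψ.symm_apply_apply _).symm
  have htX : ∀ c σ, tw c σ ∈ X := by
    intro c σ
    set ψ := Φ ^ (e0 + c) with hψ
    refine hX1 ((ψ.symm.trans (σ.restrictScalars F)).trans ψ) ?_
    intro z hz
    have hz1 : ψ.symm z ∈ KK F Ω := KK_stable F Ω ψ.symm z (hE hz)
    show ψ (σ (ψ.symm z)) = z
    rw [hfix σ _ hz1, ψ.apply_symm_apply]
  have hjc : ∀ (σ : Ω ≃ₐ[KK F Ω] Ω) (κ : Fin (r + 1) → ℕ) (n : Fin (r + 1) → ℤ),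
      σ (jc Ω κ n) = jc Ω κ n := by
    intro σ κ n
    unfold jc
    rw [map_prod]
    refine Finset.prod_congr rfl fun l _ => ?_
    rw [map_pow, map_intCast]
  have hu : ∀ (σ : Ω ≃ₐ[KK F Ω] Ω) (κ : Fin (r + 1) → ℕ) (j : Fin R),
      σ (jc Ω κ (nn j) * yy F Ω Φ Q e0 γ β 0 (nn j)) =
      jc Ω κ (nn j) * yy F Ω Φ Q e0 γ (tw 0 σ) 0 (nn j) := by
    intro σ κ j
    rw [map_mul, hjc, htw]
  refine ⟨a, ν, fun i => tw 0 (f i).1, fun i => (f i).2.1, fun i => tw (g i).2.1 (g i).1,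
    fun i => (g i).2.1, h1, h2, fun i => ⟨htX _ _, (f i).2.2⟩,
    fun i => ⟨htX _ _, (g i).2.2.1, (g i).2.2.2⟩, ?_, ?_⟩
  · convert h3 using 2
    · funext i j
      exact (hu (f i).1 (f i).2.1 j).symm
    · funext i j
      exact (htw (g i).2.1 (g i).1 (nn j)).symm
  · intro x hx κ hκ
    obtain ⟨τ, hτ1, hτ2⟩ := hX2 x hx
    set ψ := Φ ^ (e0 + 0) with hψ
    have hfx : ∀ z ∈ KK F Ω, ((ψ.trans τ).trans ψ.symm) z = z := by
      intro z hz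
      have hz1 : ψ z ∈ KK F Ω := KK_stable F Ω ψ z hz
      show ψ.symm (τ (ψ z)) = z
      rw [hτ1 _ hz1, ψ.symm_apply_apply]
    have h5 := h4 (upK (KK F Ω) ((ψ.trans τ).trans ψ.symm) hfx) ⟨κ, hκ⟩
    have h6 : tw 0 (upK (KK F Ω) ((ψ.trans τ).trans ψ.symm) hfx) = x := by
      show ψ (ψ.symm (τ (ψ (ψ.symm β)))) = x
      rw [ψ.apply_symm_apply, ψ.apply_symm_apply, hτ2]
    have h7 : (fun j => (upK (KK F Ω) ((ψ.trans τ).trans ψ.symm) hfx)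
        (jc Ω κ (nn j) * yy F Ω Φ Q e0 γ β 0 (nn j))) =
        fun j => jc Ω κ (nn j) * yy F Ω Φ Q e0 γ x 0 (nn j) := by
      funext j
      rw [hu, h6]
    have h8 : (fun (i : Fin a) (j : Fin R) => (f i).1
        (jc Ω (f i).2.1 (nn j) * yy F Ω Φ Q e0 γ β 0 (nn j))) =
        fun (i : Fin a) (j : Fin R) => jc Ω (f i).2.1 (nn j) *
          yy F Ω Φ Q e0 γ (tw 0 (f i).1) 0 (nn j) := by
      funext i j
      rw [hu]
    simp only [] at h5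
    rw [h7, h8] at h5
    exact h5

end Pool.Agent.H12.SX
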